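import Pool.Agent.H99.ADJ.Base

/-! # ADJ, module IND: the Markov property (independence) -/

set_option autoImplicit false

open MeasureTheory ProbabilityTheory Set Filter Topology
open scoped NNReal ENNReal

namespace Pool.ADJ

theorem ind_thm : S_IND := by
  intro Ω _ μ B h ι κ _ _ t s a ha ht hs
  lift a to ℝ≥0 using ha
  have hP := h.gp.isProbabilityMeasure
  set t' : ι → ℝ≥0 := fun i => ⟨t i, (ht i).1⟩ with ht'
  set s' : κ → ℝ≥0 := fun j => ⟨s j, hs j⟩ with hs'
  have et : ∀ i, t i = ((t' i : ℝ≥0) : ℝ) := fun i => rfl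
  have es : ∀ j, (a : ℝ) + s j = ((a + s' j : ℝ≥0) : ℝ) := fun j => by push_cast; rfl
  have hL : ∀ (t : ℝ≥0) (i : Fin 2), MemLp (fun ω => B (t : ℝ) ω i) 2 μ := fun t i =>
    (h.gp.hasGaussianLaw_eval (t, i)).memLp_two
  have hC : ∀ (s t : ℝ≥0) (i j : Fin 2), cov[fun ω => B (s : ℝ) ω i, fun ω => B (t : ℝ) ω j; μ] =
      if i = j then ((min s t : ℝ≥0) : ℝ) else 0 := fun s t i j => h.cov (s, i) (t, j)
  have key : IndepFun (fun (ω : Ω) (p : ι × Fin 2) => B (t' p.1 : ℝ) ω p.2)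
      (fun (ω : Ω) (p : κ × Fin 2) => B ((a + s' p.1 : ℝ≥0) : ℝ) ω p.2 - B (a : ℝ) ω p.2) μ := by
    refine IsGaussianProcess.indepFun_of_covariance_eq_zero
      (X := fun (p : ι × Fin 2) (ω : Ω) => B (t' p.1 : ℝ) ω p.2)
      (Y := fun (p : κ × Fin 2) (ω : Ω) =>
        B ((a + s' p.1 : ℝ≥0) : ℝ) ω p.2 - B (a : ℝ) ω p.2) ?_ ?_ ?_ ?_
    · refine h.gp.of_isGaussianProcess fun p => ?_
      rcases p with p | p
      · refine ⟨{(t' p.1, p.2)},
          { toFun := fun x => x ⟨(t' p.1, p.2), by simp⟩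
            map_add' := fun x y => by simp
            map_smul' := fun r x => by simp
            cont := by fun_prop }, fun ω => ?_⟩
        simp
      · refine ⟨{(a + s' p.1, p.2), (a, p.2)},
          { toFun := fun x => (x ⟨(a + s' p.1, p.2), by simp⟩ - x ⟨(a, p.2), by simp⟩)
            map_add' := fun x y => by simp; ring
            map_smul' := fun r x => by simp; ring
            cont := by fun_prop }, fun ω => ?_⟩
        simp
    · intro p
      exact ((measurable_pi_apply p.2).comp (h.meas _ (t' p.1).2)).aemeasurable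
    · intro p
      exact (((measurable_pi_apply p.2).comp (h.meas _ (a + s' p.1).2)).sub
        ((measurable_pi_apply p.2).comp (h.meas _ a.2))).aemeasurable
    · intro p q
      show cov[fun ω => B (t' p.1 : ℝ) ω p.2,
        fun ω => B ((a + s' q.1 : ℝ≥0) : ℝ) ω q.2 - B (a : ℝ) ω q.2; μ] = 0
      rw [covariance_fun_sub_right (hL _ _) (hL _ _) (hL _ _), hC, hC]
      have h1 : t' p.1 ≤ a := (ht p.1).2
      have e1 : min (t' p.1) (a + s' q.1) = t' p.1 := min_eq_left (h1.trans (by simp))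
      have e2 : min (t' p.1) a = t' p.1 := min_eq_left h1
      rw [e1, e2, sub_self]
  have h2 := key.comp (φ := fun (x : ι × Fin 2 → ℝ) (i : ι) (k : Fin 2) => x (i, k))
    (ψ := fun (x : κ × Fin 2 → ℝ) (i : κ) (k : Fin 2) => x (i, k))
    (by fun_prop) (by fun_prop)
  have e3 : (fun (x : ι × Fin 2 → ℝ) (i : ι) (k : Fin 2) => x (i, k)) ∘
      (fun (ω : Ω) (p : ι × Fin 2) => B (t' p.1 : ℝ) ω p.2) = fun ω i => B (t i) ω := by
    funext ω i k
    rfl
  have e4 : (fun (x : κ × Fin 2 → ℝ) (i : κ) (k : Fin 2) => x (i, k)) ∘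
      (fun (ω : Ω) (p : κ × Fin 2) => B ((a + s' p.1 : ℝ≥0) : ℝ) ω p.2 - B (a : ℝ) ω p.2) =
      fun ω j => B ((a : ℝ) + s j) ω - B (a : ℝ) ω := by
    funext ω j k
    simp only [Function.comp_apply, es]
    rfl
  rw [e3, e4] at h2
  exact h2

end Pool.ADJ
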