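import Pool.Agent.H65.ADJ.GMK

/-! # ADJ, module MKV: the Markov property for the event LinkedInf -/

set_option autoImplicit false

open MeasureTheory ProbabilityTheory Set Filter Topology
open scoped NNReal ENNReal NNRat

namespace Pool.ADJ

namespace MKVaux

theorem bdd_image (φ : Pl ≃ₜ Pl) (A : Set Pl) (hA : Bornology.IsBounded A) :
    Bornology.IsBounded (φ '' A) :=
  ((hA.isCompact_closure.image φ.continuous).isBounded).subset (image_mono subset_closure)

theorem tr01 {Ω : Type} (B : ℝ → Ω → Pl) (ω : Ω) (hc : Continuous fun t => B t ω) :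
    tr B ω 0 1 = closure (Set.range (fun q : Q1 => B ((q : ℚ≥0) : ℝ) ω)) := by
  rw [tr_eq_closure B ω hc zero_le_one]
  simp

/-- the set of all pairs (start point, path) for which the event holds -/
def GS (c : ℝ) (z : Pl) : Set (Pl × (ℚ≥0 → Pl)) :=
  {p | LinkedInf (closure (Set.range (fun q : Q1 => p.2 (q : ℚ≥0)))) ((√c)⁻¹ • (z - p.1))}

theorem meas_GS (h_MEA : S_MEA) (c : ℝ) (z : Pl) : MeasurableSet (GS c z) := by
  have h1 : Measurable (fun p : Pl × (ℚ≥0 → Pl) =>
      (((√c)⁻¹ • (z - p.1), fun q : Q1 => p.2 (q : ℚ≥0)) : Pl × (Q1 → Pl))) := by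
    refine Measurable.prodMk ?_ ?_
    · have h2 : Measurable (fun p : Pl × (ℚ≥0 → Pl) => z - p.1) := measurable_const.sub measurable_fst
      exact (measurable_const_smul (√c)⁻¹).comp h2
    · exact measurable_pi_lambda _ fun q => (measurable_pi_apply _).comp measurable_snd
  exact h1 (h_MEA Q1)

end MKVaux

open MKVaux in
theorem mkv_thm (h_AFF : S_AFF) (h_IND : S_IND) (h_LAW : S_LAW) (h_MEA : S_MEA)
    (h_INV : S_INV) : S_MKV := by
  intro Ω _ μ B hB
  have hP := hB.gp.isProbabilityMeasure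
  refine ⟨?_, ?_, ?_⟩
  · intro a b ha hab z
    obtain ⟨S, hS, hS2⟩ := evt h_MEA z
    have e : {ω | LinkedInf (tr B ω a b) z} =
        (fun ω (q : Q1) => B (a + (b - a) * ((q : ℚ≥0) : ℝ)) ω) ⁻¹' S := by
      ext ω
      exact hS2 B ω (hB.cont ω) a b hab
    rw [e]
    refine measurable_pi_lambda _ (fun q => hB.meas _ ?_) hS
    have := mul_nonneg (sub_nonneg.2 hab) (NNRat.cast_nonneg (α := ℝ) (q : ℚ≥0))
    linarith
  · have h1 : Measurable (fun p : Pl × Ω =>
        ((p.1, fun q : Q1 => B ((q : ℚ≥0) : ℝ) p.2) : Pl × (Q1 → Pl))) := by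
      refine Measurable.prodMk measurable_fst ?_
      exact measurable_pi_lambda _ fun q => (hB.meas _ (NNRat.cast_nonneg _)).comp measurable_snd
    have h2 := measurable_measure_prodMk_left (ν := μ) (h1 (h_MEA Q1))
    have e : (fun x : Pl => μ {ω | LinkedInf (tr B ω 0 1) x}) = fun x : Pl =>
        μ (Prod.mk x ⁻¹' ((fun p : Pl × Ω =>
          ((p.1, fun q : Q1 => B ((q : ℚ≥0) : ℝ) p.2) : Pl × (Q1 → Pl))) ⁻¹'
            {p : Pl × (Q1 → Pl) | LinkedInf (closure (Set.range p.2)) p.1})) := by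
      funext x
      congr 1
      ext ω
      show LinkedInf (tr B ω 0 1) x ↔ LinkedInf (closure (Set.range
        (fun q : Q1 => B ((q : ℚ≥0) : ℝ) ω))) x
      rw [tr01 B ω (hB.cont ω)]
    rw [e]
    exact h2
  · intro ι _ t a c ha hc ht S hS z
    have key := gmk_thm h_AFF h_IND h_LAW Ω μ B hB ι t a c ha hc ht S hS (GS c z)
      (meas_GS h_MEA c z)
    have e1 : {ω | (B a ω, path (fun u ω => (√c)⁻¹ • (B (a + c * u) ω - B a ω)) ω) ∈ GS c z} =
        {ω | LinkedInf (tr B ω a (a + c)) z} := by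
      ext ω
      have hs : (√c)⁻¹ ≠ 0 := (inv_pos.2 (Real.sqrt_pos.2 hc)).ne'
      let φ : Pl ≃ₜ Pl := (Homeomorph.subRight (B a ω)).trans (Homeomorph.smulOfNeZero (√c)⁻¹ hs)
      have hφ : ∀ y, φ y = (√c)⁻¹ • (y - B a ω) := fun y => rfl
      show LinkedInf (closure (Set.range (fun q : Q1 =>
        path (fun u ω => (√c)⁻¹ • (B (a + c * u) ω - B a ω)) ω (q : ℚ≥0))))
        ((√c)⁻¹ • (z - B a ω)) ↔ LinkedInf (tr B ω a (a + c)) z
      rw [← h_INV φ (bdd_image φ) (bdd_image φ.symm) (tr B ω a (a + c)) z, hφ]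
      have e2 : φ '' tr B ω a (a + c) = closure (Set.range (fun q : Q1 =>
          path (fun u ω => (√c)⁻¹ • (B (a + c * u) ω - B a ω)) ω (q : ℚ≥0))) := by
        rw [tr_eq_closure B ω (hB.cont ω) (by linarith), φ.image_closure, ← Set.range_comp]
        congr 2
        funext q
        simp only [Function.comp_apply, hφ, path]
        ring_nf
      rw [e2]
    rw [e1] at key
    rw [key]
    refine lintegral_congr fun ω => ?_
    congr 1
    ext ω'
    show LinkedInf (closure (Set.range (fun q : Q1 => path B ω' (q : ℚ≥0))))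
      ((√c)⁻¹ • (z - B a ω)) ↔ _
    rw [← show tr B ω' 0 1 = closure (Set.range (fun q : Q1 => path B ω' (q : ℚ≥0))) from
      tr01 B ω' (hB.cont ω')]
    rfl

end Pool.ADJ
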