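import Pool.Agent.H99.ADJ.Base

/-! # ADJ, module SEP: separation at arbitrarily small scales -/

set_option autoImplicit false

open MeasureTheory ProbabilityTheory Set Filter Topology
open scoped NNReal ENNReal

namespace Pool.ADJ

theorem sep_thm (h_POL : S_POL) : S_SEP := by
  intro Ω _ μ B h hI
  have hP := h.gp.isProbabilityMeasure
  have h1 : ∀ᵐ ω ∂μ, ∀ m : ℕ, (0 : Pl) ∉ tr B ω (1 / (m + 2 : ℝ)) (m + 2) := by
    rw [ae_all_iff]
    intro m
    have hm : (0 : ℝ) < m + 2 := by positivity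
    have h2 := h_POL Ω μ B h (1 / (m + 2 : ℝ)) (m + 2) (by positivity)
      (by
        rw [div_lt_iff₀ hm]
        nlinarith [(Nat.cast_nonneg m : (0 : ℝ) ≤ m)]) 0
    rw [ae_iff]
    simpa using h2
  obtain ⟨L, hL, C, hC, hI⟩ := hI
  have h2 : ∀ᵐ ω ∂μ, ∀ n : ℕ, ∃ a b : ℝ, 0 < a ∧ a < b ∧ b ≤ 1 / (n + 1 : ℝ) ∧
      ¬ LinkedInf (tr B ω a b) 0 := by
    rw [ae_all_iff]
    intro N
    rw [ae_iff]
    have hL0 : 0 < L := by linarith
    have hb : ∀ n : ℕ, μ {ω | ¬ ∃ a b : ℝ, 0 < a ∧ a < b ∧ b ≤ 1 / (N + 1 : ℝ) ∧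
        ¬ LinkedInf (tr B ω a b) 0} ≤ ENNReal.ofReal (C / 2 ^ n) := by
      intro n
      have hs : 0 < (L ^ n)⁻¹ * (1 / (N + 1 : ℝ)) := by positivity
      have := hI 0 _ hs n
      simp only [norm_zero, ne_eq, OfNat.ofNat_ne_zero, not_false_eq_true, zero_pow, zero_div,
        add_zero, mul_one] at this
      refine le_trans (measure_mono ?_) this
      intro ω hω j hj
      by_contra hcon
      refine hω ⟨_, _, ?_, ?_, ?_, hcon⟩
      · positivity
      · rw [pow_succ]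
        have h3 : 0 < L ^ j * ((L ^ n)⁻¹ * (1 / (N + 1 : ℝ))) := by positivity
        nlinarith
      · rw [← mul_assoc]
        have h4 : L ^ (j + 1) * (L ^ n)⁻¹ ≤ 1 := by
          rw [mul_inv_le_iff₀ (by positivity), one_mul]
          exact pow_le_pow_right₀ hL.le hj
        calc L ^ (j + 1) * (L ^ n)⁻¹ * (1 / (N + 1 : ℝ)) ≤ 1 * (1 / (N + 1 : ℝ)) := by
              gcongr
          _ = _ := one_mul _
    refine le_antisymm (ge_of_tendsto' (x := atTop) (f := fun n : ℕ => ENNReal.ofReal (C / 2 ^ n)) ?_ hb) bot_le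
    rw [show (0 : ℝ≥0∞) = ENNReal.ofReal 0 by simp]
    refine ENNReal.tendsto_ofReal ?_
    have := (tendsto_pow_atTop_nhds_zero_of_lt_one (r := (1 / 2 : ℝ)) (by norm_num)
      (by norm_num)).const_mul C
    simpa [div_eq_mul_inv] using this
  filter_upwards [h1, h2] with ω hω1 hω2 n
  obtain ⟨a, b, ha, hab, hbn, hnl⟩ := hω2 n
  refine ⟨a, b, ha, hab, hbn, ?_, hnl⟩
  obtain ⟨m, hm⟩ := exists_nat_gt (max (1 / a) b)
  intro h0
  refine hω1 m (image_mono (Icc_subset_Icc ?_ ?_) h0)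
  · rw [div_le_iff₀ (by positivity)]
    have h3 : 1 / a < m := (le_max_left _ _).trans_lt hm
    rw [div_lt_iff₀ ha] at h3
    nlinarith
  · have h3 : b < m := (le_max_right _ _).trans_lt hm
    linarith

end Pool.ADJ
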